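import Mathlib

/-! # Real-variable estimates for the approximation of logarithmically homogeneous functions -/

set_option autoImplicit false

namespace Pool.Agent.R860.LG

open Filter Topology

theorem rp_le {N s : ℝ} (hN : 0 ≤ N) (h0 : 0 < s) (h1 : s ≤ 1) : N ^ s ≤ 1 + N := by
  rcases le_total N 1 with h | h
  · exact (Real.rpow_le_one hN h h0.le).trans (by linarith)
  · calc N ^ s ≤ N ^ (1 : ℝ) := Real.rpow_le_rpow_of_exponent_le h h1
      _ = N := Real.rpow_one N
      _ ≤ 1 + N := by linarith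

theorem rp_nonneg {N s : ℝ} (hN : 0 ≤ N) : 0 ≤ N ^ s := Real.rpow_nonneg hN s

theorem quot_bd {N s : ℝ} (hN : 0 < N) (h0 : 0 < s) (h1 : s ≤ 1) :
    |(N ^ s - 1) / s| ≤ |Real.log N| * (1 + N) := by
  have hy : N ^ s = Real.exp (s * Real.log N) := by
    rw [Real.rpow_def_of_pos hN, mul_comm]
  have h2 := rp_le hN.le h0 h1
  set y := s * Real.log N with hyd
  have he := Real.add_one_le_exp y
  have he' := Real.add_one_le_exp (-y)
  have hp := Real.exp_pos y
  have h3 : Real.exp y - 1 ≤ y * Real.exp y := by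
    have := mul_le_mul_of_nonneg_right he' hp.le
    rw [← Real.exp_add] at this
    simp only [neg_add_cancel, Real.exp_zero] at this
    linarith
  rw [hy] at h2 ⊢
  rw [abs_div, abs_of_pos h0, div_le_iff₀ h0]
  have e : |Real.log N| * (1 + N) * s = |y| * (1 + N) := by
    rw [hyd, abs_mul, abs_of_pos h0]; ring
  rw [e]
  have h4 : |y| * Real.exp y ≤ |y| * (1 + N) := mul_le_mul_of_nonneg_left h2 (abs_nonneg _)
  have h5 : |y| * 1 ≤ |y| * (1 + N) := mul_le_mul_of_nonneg_left (by linarith) (abs_nonneg _)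
  rw [abs_le]
  constructor
  · have := neg_abs_le y
    linarith
  · have := mul_le_mul_of_nonneg_right (le_abs_self y) hp.le
    linarith

theorem mul_log_bd {N : ℝ} (hN : 0 ≤ N) : N * |Real.log N| ≤ 1 + N ^ 2 := by
  rcases hN.eq_or_lt with h | h
  · rw [← h]; norm_num
  rcases le_total N 1 with h1 | h1
  · have := Real.abs_log_mul_self_lt N h h1
    rw [abs_mul, abs_of_pos h] at this
    have : 0 ≤ N ^ 2 := sq_nonneg N
    linarith
  · rw [abs_of_nonneg (Real.log_nonneg h1)]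
    have := Real.log_le_sub_one_of_pos h
    nlinarith

theorem quot_tend {N : ℝ} (hN : 0 < N) {s : ℕ → ℝ} (hs : Tendsto s atTop (𝓝 0))
    (h0 : ∀ n, 0 < s n) : Tendsto (fun n => (N ^ s n - 1) / s n) atTop (𝓝 (Real.log N)) := by
  have h := (Real.hasStrictDerivAt_const_rpow hN 0).hasDerivAt
  rw [Real.rpow_zero, one_mul] at h
  have h2 := hasDerivAt_iff_tendsto_slope.1 h
  have h3 : Tendsto s atTop (𝓝[≠] 0) :=
    tendsto_nhdsWithin_iff.2 ⟨hs, Eventually.of_forall fun n => (h0 n).ne'⟩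
  refine (h2.comp h3).congr fun n => ?_
  simp only [Function.comp, slope, vsub_eq_sub, sub_zero, smul_eq_mul, Real.rpow_zero]
  rw [div_eq_inv_mul]

theorem pow_tend {N : ℝ} (hN : 0 < N) {s : ℕ → ℝ} (hs : Tendsto s atTop (𝓝 0)) :
    Tendsto (fun n => N ^ s n) atTop (𝓝 1) := by
  have h := ((Real.hasStrictDerivAt_const_rpow hN 0).hasDerivAt.continuousAt.tendsto).comp hs
  rw [Real.rpow_zero] at h
  exact h

/-- the function of the two numbers -/
noncomputable def ge (c C ε N w D : ℝ) : ℝ :=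
  N ^ (ε / 2) * w + c * D * ((N ^ (ε / 2) - 1) / (ε / 2) - Real.log N * N ^ (ε / 2))
    + C * ε * N ^ (1 + ε / 2)

theorem ge_bd (c C : ℝ) {ε N w D : ℝ} (h0 : 0 < ε) (h1 : ε < 1) (hN : 0 ≤ N) (hD : |D| ≤ N) :
    |ge c C ε N w D| ≤ (1 + N) * |w| + |c| * (2 * (1 + N ^ 2) * (1 + N)) + |C| * (N * (1 + N)) := by
  have hs0 : 0 < ε / 2 := by positivity
  have hs1 : ε / 2 ≤ 1 := by linarith
  have a1 : |N ^ (ε / 2) * w| ≤ (1 + N) * |w| := by
    rw [abs_mul, abs_of_nonneg (rp_nonneg hN)]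
    exact mul_le_mul_of_nonneg_right (rp_le hN hs0 hs1) (abs_nonneg _)
  have a2 : |c * D * ((N ^ (ε / 2) - 1) / (ε / 2) - Real.log N * N ^ (ε / 2))|
      ≤ |c| * (2 * (1 + N ^ 2) * (1 + N)) := by
    rw [mul_assoc, abs_mul]
    refine mul_le_mul_of_nonneg_left ?_ (abs_nonneg _)
    rcases hN.eq_or_lt with h | h
    · have : D = 0 := by
        rw [← h] at hD
        exact abs_nonpos_iff.1 hD
      rw [this, zero_mul, abs_zero]
      positivity
    have b1 := quot_bd h hs0 hs1
    have b2 : |Real.log N * N ^ (ε / 2)| ≤ |Real.log N| * (1 + N) := by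
      rw [abs_mul, abs_of_nonneg (rp_nonneg hN)]
      exact mul_le_mul_of_nonneg_left (rp_le hN hs0 hs1) (abs_nonneg _)
    have b3 : |(N ^ (ε / 2) - 1) / (ε / 2) - Real.log N * N ^ (ε / 2)|
        ≤ 2 * (|Real.log N| * (1 + N)) := by
      refine (abs_sub _ _).trans ?_
      linarith
    have b4 := mul_log_bd hN
    rw [abs_mul]
    calc |D| * |(N ^ (ε / 2) - 1) / (ε / 2) - Real.log N * N ^ (ε / 2)|
        ≤ N * (2 * (|Real.log N| * (1 + N))) := mul_le_mul hD b3 (abs_nonneg _) hN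
      _ = 2 * (N * |Real.log N|) * (1 + N) := by ring
      _ ≤ 2 * (1 + N ^ 2) * (1 + N) := by
        refine mul_le_mul_of_nonneg_right ?_ (by linarith)
        linarith
  have a3 : |C * ε * N ^ (1 + ε / 2)| ≤ |C| * (N * (1 + N)) := by
    rw [abs_mul, abs_mul, abs_of_pos h0, abs_of_nonneg (rp_nonneg hN), mul_assoc]
    refine mul_le_mul_of_nonneg_left ?_ (abs_nonneg _)
    have e : N ^ (1 + ε / 2) = N * N ^ (ε / 2) := by
      rw [Real.rpow_add' hN (by positivity), Real.rpow_one]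
    rw [e]
    have b := rp_le hN hs0 hs1
    have b2 : N * N ^ (ε / 2) ≤ N * (1 + N) := mul_le_mul_of_nonneg_left b hN
    have b3 : 0 ≤ N * N ^ (ε / 2) := mul_nonneg hN (rp_nonneg hN)
    nlinarith
  unfold ge
  calc _ ≤ |N ^ (ε / 2) * w + c * D * ((N ^ (ε / 2) - 1) / (ε / 2) - Real.log N * N ^ (ε / 2))|
      + |C * ε * N ^ (1 + ε / 2)| := abs_add_le _ _
    _ ≤ |N ^ (ε / 2) * w| + |c * D * ((N ^ (ε / 2) - 1) / (ε / 2) - Real.log N * N ^ (ε / 2))|
      + |C * ε * N ^ (1 + ε / 2)| := by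
      gcongr
      exact abs_add_le _ _
    _ ≤ _ := by linarith

theorem ge_tend (c C : ℝ) {N w D : ℝ} (hN : 0 ≤ N) (hw : N = 0 → w = 0) (hD : |D| ≤ N)
    {e : ℕ → ℝ} (he : Tendsto e atTop (𝓝 0)) (h0 : ∀ n, 0 < e n) :
    Tendsto (fun n => ge c C (e n) N w D) atTop (𝓝 w) := by
  rcases hN.eq_or_lt with h | h
  · have hw0 := hw h.symm
    have hD0 : D = 0 := by
      rw [← h] at hD
      exact abs_nonpos_iff.1 hD
    have : (fun n => ge c C (e n) N w D) = fun _ => w := by
      funext n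
      unfold ge
      have h2 := h0 n
      rw [← h, hw0, hD0, Real.zero_rpow (x := 1 + e n / 2) (by positivity)]
      ring
    rw [this]
    exact tendsto_const_nhds
  have he2 : Tendsto (fun n => e n / 2) atTop (𝓝 0) := by
    simpa using he.div_const 2
  have t1 := pow_tend h he2
  have t2 := quot_tend h he2 (fun n => by have := h0 n; positivity)
  have t3 : Tendsto (fun n => N ^ (1 + e n / 2)) atTop (𝓝 N) := by
    have e2 : (fun n => N ^ (1 + e n / 2)) = fun n => N * N ^ (e n / 2) := by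
      funext n
      rw [Real.rpow_add h, Real.rpow_one]
    rw [e2]
    have t4 := t1.const_mul N
    rw [mul_one] at t4
    exact t4
  have t := ((t1.mul_const w).add ((t2.sub (t1.const_mul (Real.log N))).const_mul (c * D))).add
    ((he.const_mul C).mul t3)
  simp only [one_mul, mul_one, sub_self, mul_zero, add_zero, zero_mul] at t
  exact t

end Pool.Agent.R860.LG
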